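import Pool.Agent.Helper68.FTLimit

/-!
# MP_1438b7_co, the cases `d = 4` and `d = 5`

For `d ∈ {4, 5}` and every `k ≥ 1` the limit of `phihat n d k / n` exists and equals `1 / 2`.
-/

namespace Pool.Agent.Results.MP_1438b7_co.DiameterFourFive

open Pool.Agent.Helper68 Filter Topology

/-- For `d = 4` and `d = 5` and every `k ≥ 1` the limit of `phihat n d k / n` as `n → ∞` exists
and equals `1 / 2`. -/
theorem result (d k : ℕ) (hd : d = 4 ∨ d = 5) (hk : 1 ≤ k) :
    Tendsto (fun n : ℕ => phihat n d k / n) atTop (𝓝 (1 / 2)) :=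
  tendsto_four_five (by omega) (by omega) hk

end Pool.Agent.Results.MP_1438b7_co.DiameterFourFive
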