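import Pool.Agent.Helper72.FT6.Lim

/-!
# MP_1438b7_co, the case `d = 6`

For `d = 6` and every `k ≥ 1` the limit of `phihat n 6 k / n` exists and equals `1 / (k + 1)`.
-/

namespace Pool.Agent.Results.MP_1438b7_co.DiameterSix

open Pool.Agent.Helper68 Filter Topology

/-- For `d = 6` and every `k ≥ 1` the limit of `phihat n 6 k / n` as `n → ∞` exists and equals
`1 / (k + 1)`. -/
theorem result (k : ℕ) (hk : 1 ≤ k) :
    Tendsto (fun n : ℕ => phihat n 6 k / n) atTop (𝓝 (1 / ((k : ℝ) + 1))) :=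
  Pool.Agent.Helper72.FT6.tendsto_six hk

end Pool.Agent.Results.MP_1438b7_co.DiameterSix
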