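import Pool.Agent.Helper68.FTLimit

/-!
# MP_1438b7_co, the case `d = 3`

For `d = 3` and every `k ≥ 1` the limit of `phihat n 3 k / n` exists and equals `k / 2`.
-/

namespace Pool.Agent.Results.MP_1438b7_co.DiameterThree

open Pool.Agent.Helper68 Filter Topology

/-- For every `k ≥ 1` the limit of `phihat n 3 k / n` as `n → ∞` exists and equals `k / 2`. -/
theorem result (k : ℕ) (hk : 1 ≤ k) :
    Tendsto (fun n : ℕ => phihat n 3 k / n) atTop (𝓝 ((k : ℝ) / 2)) :=
  tendsto_three hk

end Pool.Agent.Results.MP_1438b7_co.DiameterThree
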