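import Pool.Agent.FTE.Sharp

/-!
# MP_1438b7_co, all `d ≥ 6` and all `k ≥ 3`

Upper and lower bounds for `phihat n d k / n`.  With `r = ⌊d / 2⌋` the lower and the upper limit of
`(k - 1) ^ (r - 2) * phihat n d k / n` lie between `(k - 2) / (k + 1)` and `1` for even `d`, between
`(k - 2) / (2 k)` and `min 1 (⌈k / 2⌉ / (k - 2))` for odd `d`; uniformly in `d`.
-/

namespace Pool.Agent.Results.MP_1438b7_co.SharpAsymptotics

open Pool.Agent.Helper68 Filter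

/-- Let `d ≥ 6`, `k ≥ 3`, `r = ⌊d / 2⌋` and `ε > 0`. For all large `n`:
(1) `(k - 2) / (2 k) - ε ≤ (k - 1) ^ (r - 2) * (phihat n d k / n) ≤ 1 + ε`;
(2) if `d` is even, the first number is at least `(k - 2) / (k + 1) - ε`;
(3) if `d` is odd, it is at most `⌈k / 2⌉ / (k - 2) + ε`;
(4) `phihat n d k / n ≥ 1 / (2 ((k - 1) ^ (r - 2) + 2 ∑ a < r - 2, (k - 1) ^ a)) - ε`;
(5) if `d` is even, `phihat n d k / n ≥ 1 / (2 ∑ a < r - 2, (k - 1) ^ a + k (k - 1) ^ (r - 3)) - ε`. -/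
theorem result (d k : ℕ) (hd : 6 ≤ d) (hk : 3 ≤ k) (ε : ℝ) (hε : 0 < ε) :
    ∀ᶠ n : ℕ in atTop,
      (((k : ℝ) - 2) / (2 * k) - ε ≤ (k - 1) ^ (d / 2 - 2) * (phihat n d k / n) ∧
      ((k : ℝ) - 1) ^ (d / 2 - 2) * (phihat n d k / n) ≤ 1 + ε ∧
      (Even d → ((k : ℝ) - 2) / (k + 1) - ε ≤ (k - 1) ^ (d / 2 - 2) * (phihat n d k / n)) ∧
      (Odd d → ((k : ℝ) - 1) ^ (d / 2 - 2) * (phihat n d k / n) ≤
        (((k + 1) / 2 : ℕ) : ℝ) / (k - 2) + ε)) ∧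
      1 / (2 * (((k : ℝ) - 1) ^ (d / 2 - 2) +
        2 * ∑ a ∈ Finset.range (d / 2 - 2), ((k : ℝ) - 1) ^ a)) - ε ≤ phihat n d k / n ∧
      (Even d → 1 / (2 * ∑ a ∈ Finset.range (d / 2 - 2), ((k : ℝ) - 1) ^ a +
        k * ((k : ℝ) - 1) ^ (d / 2 - 3)) - ε ≤ phihat n d k / n) := by
  have h3 : ∀ᶠ n : ℕ in atTop, (Even d →
      1 / (2 * ∑ a ∈ Finset.range (d / 2 - 2), ((k : ℝ) - 1) ^ a +
        k * ((k : ℝ) - 1) ^ (d / 2 - 3)) - ε ≤ phihat n d k / n) := by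
    by_cases he : Even d
    · exact (Pool.Agent.FTE.lower_even_ev hd hk he hε).mono (fun n hn _ => hn)
    · exact Eventually.of_forall (fun n h => absurd h he)
  filter_upwards [Pool.Agent.FTE.lower_odd_ev hd hk hε, h3, Pool.Agent.FTE.rel_ev hd hk hε] with
    n h5 h6 h7
  exact ⟨h7, h5, h6⟩

end Pool.Agent.Results.MP_1438b7_co.SharpAsymptotics
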